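import Pool.Agent.MP_d5eec5_gt.H77.KBot
import Pool.Agent.MP_d5eec5_gt.H14.Col1

/-! Colourings of line diagrams. -/

set_option autoImplicit false

namespace Pool.Agent.MP_d5eec5_gt.H77

open Pool.Agent.MP_d5eec5_gt.H48 Kind

namespace Col2

open Col1

variable {A : Type} {γ : Bool → Equiv.Perm A} {P : Bool → Set A}

theorem col_mir {w : List Gen} {l m : List A} (h : Col γ P l w m) (hw : NoEnd w) :
    Col γ P m (mir w) l := by
  induction h with
  | nil l => exact Col.nil l
  | cup x _ ih =>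
    rw [mir_cons]
    exact append_iff.2 ⟨_, ih fun g hg => hw g (List.mem_cons_of_mem _ hg), Col.cap x (Col.nil _)⟩
  | cap x _ ih =>
    rw [mir_cons]
    exact append_iff.2 ⟨_, ih fun g hg => hw g (List.mem_cons_of_mem _ hg), Col.cup x (Col.nil _)⟩
  | cr x y b _ ih =>
    rw [mir_cons]
    exact append_iff.2
      ⟨_, ih fun g hg => hw g (List.mem_cons_of_mem _ hg), Col.cr y x b (Col.nil _)⟩
  | up x e _ _ _ => exact absurd (hw _ List.mem_cons_self e) (by simp [IsEnd])
  | dn x e _ _ _ => exact absurd (hw _ List.mem_cons_self e) (by simp [IsEnd])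

theorem one_iff {g : Gen} {l m : List A} : Col γ P l [g] m ↔ St γ P g l m := by
  simp only [cons_iff, nil_iff, exists_eq_right]

theorem St_at {c t m : List A} {k : Kind} {n : ℕ} (hn : n = c.length) :
    St γ P (n, k) (c ++ t) m ↔ ∃ m', m = c ++ m' ∧ St γ P (0, k) t m' :=
  hn ▸ St_shift (j := 0)

theorem col_chain (c d : A) (u v z : List A) :
    Col γ P (c :: d :: (u ++ v)) (chain u.length) z ↔ z = c :: u ++ d :: v := by
  induction u using List.reverseRecOn generalizing v z with
  | nil => simp [nil_iff, eq_comm]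
  | append_singleton u b ih =>
    rw [List.length_append, List.length_singleton, chain_succ, append_iff, List.append_assoc]
    simp only [ih, exists_eq_left, one_iff]
    rw [St_at (c := c :: u) (n := u.length + 1) rfl]
    simp [St_cr]

theorem col_bot [Nonempty A] {l : List ℕ} (h : Dbl l) (z : List A) :
    Col γ P [] (bot l) z ↔ ∃ f : ℕ → A, z = l.map f := by
  induction hn : l.length using Nat.strong_induction_on generalizing l z with
  | _ n ih =>
    cases l with
    | nil => simp [nil_iff, eq_comm]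
    | cons a l =>
      obtain ⟨l₁, l₂, rfl, h1⟩ := List.eq_append_cons_of_mem h.mem_tail
      have e1 : (l₁ ++ a :: l₂).erase a = l₁ ++ l₂ := by
        rw [List.erase_append_right _ h1, List.erase_cons_head]
      have e2 : (l₁ ++ a :: l₂).idxOf a = l₁.length := by
        rw [List.idxOf_append_of_notMem h1, List.idxOf_cons_self, Nat.add_zero]
      have h2 := h.not_mem_erase
      have h3 := h.erase
      rw [e1] at h2 h3
      have h4 := fun z => ih _ (by simp at hn ⊢; omega) h3 z rfl
      rw [bot_cons, e1, e2, append_iff]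
      simp only [h4, cons_iff, St_cup]
      constructor
      · rintro ⟨_, ⟨f, rfl⟩, _, ⟨c, rfl⟩, h5⟩
        rw [List.map_append, ← List.length_map f, col_chain] at h5
        have h6 : ∀ t : List ℕ, a ∉ t → t.map (Function.update f a c) = t.map f := fun t ht =>
          List.map_congr_left fun b hb => Function.update_of_ne (fun e : b = a => ht (e ▸ hb)) _ _
        refine ⟨Function.update f a c, ?_⟩
        rw [h5, List.map_cons, List.map_append, List.map_cons, Function.update_self, h6 _ h1,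
          h6 _ fun hb => h2 (List.mem_append_right _ hb)]
        rfl
      · rintro ⟨f, rfl⟩
        refine ⟨_, ⟨f, rfl⟩, _, ⟨f a, rfl⟩, ?_⟩
        rw [List.map_append, ← List.length_map f, col_chain]
        simp

theorem col_top [Nonempty A] {l : List ℕ} (h : Dbl l) (z : List A) :
    Col γ P z (top l) [] ↔ ∃ f : ℕ → A, z = l.map f := by
  rw [← col_bot (γ := γ) (P := P) h]
  refine ⟨fun H => ?_, fun H => col_mir H (bot_noEnd l)⟩
  have := col_mir H (top_noEnd l)
  rwa [top, mir_mir] at this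

theorem col_ends (a b c z : List A) :
    Col γ P (a ++ b ++ c) (ends a.length b.length) z ↔ ∃ x ∈ P false, ∃ y ∈ P true,
      z = a ++ x :: b.map (γ false) ++ y :: (c.map (γ false)).map (γ true) := by
  rw [ends, two_iff, List.append_assoc]
  simp only [St_at rfl, St_up]
  constructor
  · rintro ⟨_, ⟨_, rfl, x, hx, rfl⟩, h⟩
    rw [List.map_append, ← List.cons_append, ← List.append_assoc,
      St_at (by simp only [List.length_append, List.length_cons, List.length_map]; omega)] at h
    obtain ⟨_, rfl, h⟩ := h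
    obtain ⟨y, hy, rfl⟩ := St_up.1 h
    exact ⟨x, hx, y, hy, rfl⟩
  · rintro ⟨x, hx, y, hy, rfl⟩
    refine ⟨_, ⟨_, rfl, x, hx, rfl⟩, ?_⟩
    rw [List.map_append, ← List.cons_append, ← List.append_assoc,
      St_at (by simp only [List.length_append, List.length_cons, List.length_map]; omega)]
    exact ⟨_, rfl, St_up.2 ⟨y, hy, rfl⟩⟩

theorem act_append (n : ℕ) (v u : Wd) (t : A) (h : v.length = 2 * n) :
    act γ (v ++ u) t = act γ u (act γ v t) := by
  induction n generalizing v t with
  | zero =>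
    rw [List.length_eq_zero_iff.1 h]
    rfl
  | succ n ih =>
    match v, h with
    | x :: y :: v, h => exact ih v _ (by simp at h; omega)

/-- the first `2 n` letters -/
def wd (lt : ℕ → Fin 3) (n : ℕ) : Wd := (List.range (2 * n)).map fun i => lt (i + 1)

theorem act_succ (lt : ℕ → Fin 3) (n : ℕ) (t : A) : act γ (wd lt (n + 1)) t =
    seg γ (lt (2 * n + 2)) ((seg γ (lt (2 * n + 1)))⁻¹ (act γ (wd lt n) t)) := by
  have e : wd lt (n + 1) = wd lt n ++ [lt (2 * n + 1), lt (2 * n + 2)] := by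
    simp [wd, Nat.mul_succ, List.range_succ]
  rw [e, act_append n _ _ _ (by simp [wd])]
  rfl

theorem follow (lt : ℕ → Fin 3) (n : ℕ) {f g : ℕ → A}
    (h : ∀ k, 1 ≤ k → k ≤ 2 * n → seg γ (lt k) (f ((k + 1) / 2)) = g (k / 2)) :
    act γ (wd lt n) (g 0) = g n := by
  induction n with
  | zero => rfl
  | succ n ih =>
    have h1 := h (2 * n + 1) (by omega) (by omega)
    have h2 := h (2 * n + 2) (by omega) (by omega)
    rw [show (2 * n + 1 + 1) / 2 = n + 1 by omega, show (2 * n + 1) / 2 = n by omega] at h1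
    rw [show (2 * n + 2 + 1) / 2 = n + 1 by omega, show (2 * n + 2) / 2 = n + 1 by omega] at h2
    rw [act_succ, ih fun k a b => h k a (by omega), ← h1, ← h2]
    simp

theorem build (lt : ℕ → Fin 3) (x : A) : ∃ f : ℕ → A,
    ∀ k, 1 ≤ k → seg γ (lt k) (f ((k + 1) / 2)) = act γ (wd lt (k / 2)) x := by
  refine ⟨fun j => (seg γ (lt (2 * (j - 1) + 1)))⁻¹ (act γ (wd lt (j - 1)) x), fun k hk => ?_⟩
  obtain ⟨n, rfl | rfl⟩ : ∃ n, k = 2 * n + 1 ∨ k = 2 * n + 2 := ⟨(k - 1) / 2, by omega⟩
  · rw [show (2 * n + 1 + 1) / 2 = n + 1 by omega, show (2 * n + 1) / 2 = n by omega]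
    simp
  · rw [show (2 * n + 2 + 1) / 2 = n + 1 by omega, show (2 * n + 2) / 2 = n + 1 by omega,
      act_succ]
    rfl

theorem app_iff {s s' t t' : List A} (h : s.length = s'.length) :
    s ++ t = s' ++ t' ↔ s = s' ∧ t = t' :=
  ⟨fun e => List.append_inj e h, fun e => by rw [e.1, e.2]⟩

/-- the letter of a point -/
def let3 (L : Line) (k : ℕ) : Fin 3 := if k ∈ L.a then 0 else if k ∈ L.b then 1 else 2

theorem glue {L : Line} (h : Lab L) (f g : ℕ → A) (x y : A) :
    L.a.map f ++ x :: (L.b.map f).map (γ false) ++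
      y :: ((L.c.map f).map (γ false)).map (γ true) =
      (L.a ++ 0 :: L.b ++ (L.m + 1) :: L.c).map g ↔
    x = g 0 ∧ y = g (L.m + 1) ∧ ∀ k, 1 ≤ k → k ≤ L.m → seg γ (let3 L k) (f k) = g k := by
  have hn : (L.a ++ L.b ++ L.c).Nodup := h.2.nodup_iff.2 List.nodup_range'
  have hm : ∀ k, (k ∈ L.a ∨ k ∈ L.b) ∨ k ∈ L.c ↔ 1 ≤ k ∧ k ≤ L.m := fun k => by
    have := h.2.mem_iff (a := k)
    simp only [Line.all, List.mem_append, List.mem_range'_1] at this
    rw [this]
    omega
  obtain ⟨hn1, -, hn2⟩ := List.nodup_append.1 hn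
  obtain ⟨-, -, hn3⟩ := List.nodup_append.1 hn1
  have sa : ∀ k ∈ L.a, seg γ (let3 L k) (f k) = f k := fun k hk => by simp [let3, seg, hk]
  have sb : ∀ k ∈ L.b, seg γ (let3 L k) (f k) = γ false (f k) := fun k hk => by
    have : k ∉ L.a := fun h' => hn3 k h' k hk rfl
    simp [let3, seg, hk, this]
  have sc : ∀ k ∈ L.c, seg γ (let3 L k) (f k) = γ true (γ false (f k)) := fun k hk => by
    have h1 : k ∉ L.a := fun h' => hn2 k (List.mem_append_left _ h') k hk rfl
    have h2 : k ∉ L.b := fun h' => hn2 k (List.mem_append_right _ h') k hk rfl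
    simp [let3, seg, h1, h2]
  rw [List.map_append, List.map_append, List.append_assoc, List.append_assoc,
    app_iff (by simp), List.map_cons, List.cons_append, List.cons_append, List.cons.injEq,
    app_iff (by simp), List.map_cons, List.cons.injEq]
  simp only [List.map_map, List.map_inj_left, Function.comp]
  constructor
  · rintro ⟨h1, h2, h3, h4, h5⟩
    refine ⟨h2, h4, fun k a b => ?_⟩
    rcases (hm k).2 ⟨a, b⟩ with (hk | hk) | hk
    · rw [sa k hk, h1 k hk]
    · rw [sb k hk, h3 k hk]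
    · rw [sc k hk, h5 k hk]
  · rintro ⟨h1, h2, h3⟩
    have h4 := fun k hk => h3 k ((hm k).1 hk).1 ((hm k).1 hk).2
    exact ⟨fun k hk => (sa k hk).symm.trans (h4 k (.inl (.inl hk))), h1,
      fun k hk => (sb k hk).symm.trans (h4 k (.inl (.inr hk))), h2,
      fun k hk => (sc k hk).symm.trans (h4 k (.inr hk))⟩

end Col2

open Col1 Col2 in
theorem col2 : StmtCol2 := by
  intro A γ P L h
  obtain ⟨n, hn⟩ := h.1
  have hn2 : L.m = 2 * n := by omega
  have hw : wordOf L = wd (let3 L) n := by
    rw [wordOf, wd, hn2]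
    rfl
  have hb : ∀ f : ℕ → A, (botIds L).map f = L.a.map (fun k => f ((k + 1) / 2)) ++
      L.b.map (fun k => f ((k + 1) / 2)) ++ L.c.map fun k => f ((k + 1) / 2) := fun f => by
    simp only [botIds, Line.all, List.map_map, List.map_append]
    rfl
  have he : ∀ (f : ℕ → A) z, Col γ P ((botIds L).map f) (ends L.a.length L.b.length) z ↔ _ :=
    fun f z => by
      rw [hb, ← List.length_map fun k => f ((k + 1) / 2),
        ← List.length_map (as := L.b) fun k => f ((k + 1) / 2), col_ends]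
  have ht : ∀ g : ℕ → A, (topIds L).map g =
      (L.a ++ 0 :: L.b ++ (L.m + 1) :: L.c).map fun k => g (k / 2) := fun g => by
    rw [topIds, List.map_map]
    rfl
  rw [hw, LD, append_iff]
  constructor
  · rintro ⟨z', h1, h2⟩
    obtain ⟨z, h1, h3⟩ := append_iff.1 h1
    have : Nonempty A := by
      obtain ⟨_, ⟨_, _, _, _, -, ⟨-, x, -⟩, -⟩, -⟩ := two_iff.1 h3
      exact ⟨x⟩
    obtain ⟨f, rfl⟩ := (col_bot h.dbl_bot z).1 h1
    obtain ⟨g, rfl⟩ := (col_top h.dbl_top z').1 h2
    obtain ⟨x, hx, y, hy, e⟩ := (he f _).1 h3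
    obtain ⟨rfl, rfl, h4⟩ := (glue h _ _ x y).1 (e.symm.trans (ht g))
    refine ⟨_, hx, ?_⟩
    rw [show (L.m + 1) / 2 = n by omega] at hy
    rw [Nat.zero_div, follow (let3 L) n fun k a b => h4 k a (by omega)]
    exact hy
  · rintro ⟨x, hx, hy⟩
    have : Nonempty A := ⟨x⟩
    obtain ⟨f, hf⟩ := build (γ := γ) (let3 L) x
    refine ⟨_, append_iff.2 ⟨_, (col_bot h.dbl_bot _).2 ⟨f, rfl⟩, (he f _).2 ⟨x, hx, _, hy, rfl⟩⟩,
      (col_top h.dbl_top _).2 ⟨fun j => act γ (wd (let3 L) j) x, ?_⟩⟩
    rw [ht, glue h]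
    exact ⟨rfl, by rw [show (L.m + 1) / 2 = n by omega], fun k a _ => hf k a⟩

end Pool.Agent.MP_d5eec5_gt.H77
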